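import Mathlib
import Pool.Agent.H16.WD.Digits
import Pool.Graph.R_pool_sql_team_seeded_b0a926ef.R500.WB.Local

set_option autoImplicit false

/-!
# Sums of `100 k` `k`-th powers with prescribed digits outside any given short block

Let `k, b ≥ 2`. For every large `n` and every block of consecutive places which contains the `10 ^ (-41)`-th part of the
digits of `n` in base `b`, wherever it is situated, there is a sum of exactly `100 k` positive `k`-th powers which has the
same digits as `n` at all places outside the block. With `s + 4 k` powers this holds for blocks which contain more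
than the `(1 - 1 / k) ^ s`-th part of the digits. More generally `n` is approximated by the sums of `s + 4 k` positive
`k`-th powers simultaneously in the real and in the `b`-adic metric: for every `M` with `C b ^ M ≤ n ^ (1 - η)`,
`η = (1 - 1 / k) ^ s`, there is such a sum `S ≡ n` modulo `b ^ M` with `0 < n - S ≤ C b ^ M n ^ η`.

Proof. A greedy algorithm at the real place and at the primes dividing `b` at the same time: numbers `w ≡ 1` modulo
`b ^ (2 k + 1)` are `k`-th powers in `ℤ_p` for all `p ∣ b` (Hensel); if `b ^ (k a)` is a little smaller than `w ^ (1 / k)`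
then a `y` near `w ^ (1 / k)` can be chosen with `w = y ^ k + b ^ (k a) w'`, `w' ≡ 1`, `w' ≍ w ^ (1 - 1 / k)`. After `s` steps
`w` is replaced by `b ^ (k A) w'` with `w' ≍ w ^ ((1 - 1 / k) ^ s)`, and `b ^ (k A)` can be prescribed up to a constant factor.
The first step needs `n - 1` modulo `b ^ (2 k + 1)` to be a sum of `4 k` powers.
-/

open Finset

namespace Pool.Agent.Results.MP_570bef_nt.BlocksOfDigits

/-- `S` is a sum of exactly `N` positive `k`-th powers -/
def SumOfPositivePowers (k N S : ℕ) : Prop := ∃ x : Fin N → ℕ, (∀ i, 0 < x i) ∧ S = ∑ i, x i ^ k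

/-- `S` and `n` have the same digits in base `b`, except possibly at the `D` places `M, M + 1, …, M + D - 1` -/
def SameDigitsOutside (b M D S n : ℕ) : Prop :=
  ∀ j : ℕ, j < M ∨ M + D ≤ j → (Nat.digits b S).getD j 0 = (Nat.digits b n).getD j 0

theorem result (k b : ℕ) (hk : 2 ≤ k) (hb : 2 ≤ b) :
    -- `100 k` powers, blocks containing the `10 ^ (-41)`-th part of the digits
    (∃ c : ℕ, ∀ n M D : ℕ, M + D ≤ (Nat.digits b n).length → ((Nat.digits b n).length : ℝ) / 10 ^ 41 + c ≤ D →
      ∃ S : ℕ, SumOfPositivePowers k (100 * k) S ∧ SameDigitsOutside b M D S n) ∧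
    ∀ s : ℕ,
      -- `s + 4 k` powers, blocks containing the `(1 - 1 / k) ^ s`-th part of the digits
      (∃ c : ℕ, ∀ n M D : ℕ, M + D ≤ (Nat.digits b n).length →
        (1 - 1 / (k : ℝ)) ^ s * (Nat.digits b n).length + c ≤ D →
        ∃ S : ℕ, SumOfPositivePowers k (s + 4 * k) S ∧ SameDigitsOutside b M D S n) ∧
      -- simultaneous approximation
      ∃ C : ℝ, 0 < C ∧ ∀ n M : ℕ, C * (b : ℝ) ^ M ≤ (n : ℝ) ^ (1 - (1 - 1 / (k : ℝ)) ^ s) →
        ∃ S : ℕ, SumOfPositivePowers k (s + 4 * k) S ∧ S < n ∧ S ≡ n [MOD b ^ M] ∧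
          (n : ℝ) - S ≤ C * (b : ℝ) ^ M * (n : ℝ) ^ ((1 - 1 / (k : ℝ)) ^ s) := by
  have hc := H16.WD.gcd_pow_dvd (k := k) (b := b) (by omega) (by omega)
  have hloc : ∀ n : ℕ, ∃ ρ : Fin (4 * k) → ℕ, ∑ i, ρ i ^ k ≡ n [MOD b ^ (2 * k + 1)] :=
    R500.WB.Loc.four (k := k) (q := b ^ (2 * k + 1)) (by omega) (Nat.one_le_pow _ _ (by omega))
  have hblock : ∀ s : ℕ, ∃ c : ℕ, ∀ n M D : ℕ, M + D ≤ (Nat.digits b n).length →
        (1 - 1 / (k : ℝ)) ^ s * (Nat.digits b n).length + c ≤ D →
        ∃ S : ℕ, SumOfPositivePowers k (s + 4 * k) S ∧ SameDigitsOutside b M D S n := by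
    intro s
    obtain ⟨c0, h⟩ := H16.WD.block hk hb hc (by omega) hloc s
    refine ⟨c0 + 1, fun n M D hMD hD => ?_⟩
    rcases Nat.eq_zero_or_pos n with h0 | h0
    · exfalso
      subst h0
      simp only [Nat.digits_zero, List.length_nil, Nat.le_zero, Nat.add_eq_zero_iff] at hMD
      rw [hMD.2] at hD
      simp only [Nat.digits_zero, List.length_nil, Nat.cast_zero, mul_zero, zero_add, Nat.cast_add, Nat.cast_one] at hD
      have : (0 : ℝ) ≤ c0 := by positivity
      linarith
    · have h1 : b ^ ((Nat.digits b n).length - 1) ≤ n := by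
        have h2 := Nat.base_pow_length_digits_le b n (by omega) h0.ne'
        have h3 : 0 < (Nat.digits b n).length := by
          rw [List.length_pos_iff]
          exact Nat.digits_ne_nil_iff_ne_zero.2 h0.ne'
        have h4 : b ^ (Nat.digits b n).length = b * b ^ ((Nat.digits b n).length - 1) := by
          rw [← pow_succ']; congr 1; omega
        rw [h4] at h2
        exact Nat.le_of_mul_le_mul_left h2 (by omega)
      have h2 : n < b ^ (Nat.digits b n).length := Nat.lt_base_pow_length_digits (by omega)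
      obtain ⟨x, hx, e1, e2⟩ := h n _ M D h1 h2 hMD (by push_cast at hD; linarith)
      exact ⟨_, ⟨x, hx, rfl⟩, H16.WD.digits_eq hb e1 e2⟩
  refine ⟨?_, fun s => ⟨hblock s, ?_⟩⟩
  · obtain ⟨c, h⟩ := hblock (96 * k)
    refine ⟨c, fun n M D hMD hD => ?_⟩
    have hk0 : (0 : ℝ) < k := by exact_mod_cast (by omega : 0 < k)
    have hη : (1 - 1 / (k : ℝ)) ^ (96 * k) ≤ 1 / 10 ^ 41 := by
      have h1 : (1 - 1 / (k : ℝ)) ^ k ≤ Real.exp (-1) := by
        have h2 : 1 - 1 / (k : ℝ) ≤ Real.exp (-(1 / (k : ℝ))) := by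
          have := Real.add_one_le_exp (-(1 / (k : ℝ)))
          linarith
        have h3 : 0 ≤ 1 - 1 / (k : ℝ) := by
          rw [sub_nonneg, div_le_one hk0]
          exact_mod_cast (by omega : 1 ≤ k)
        calc (1 - 1 / (k : ℝ)) ^ k ≤ (Real.exp (-(1 / (k : ℝ)))) ^ k := pow_le_pow_left₀ h3 h2 k
          _ = Real.exp (-1) := by
              rw [← Real.exp_nat_mul]
              congr 1
              field_simp
      have h3 : 0 ≤ (1 - 1 / (k : ℝ)) ^ k := by
        apply pow_nonneg
        rw [sub_nonneg, div_le_one hk0]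
        exact_mod_cast (by omega : 1 ≤ k)
      calc (1 - 1 / (k : ℝ)) ^ (96 * k) = ((1 - 1 / (k : ℝ)) ^ k) ^ 96 := by rw [← pow_mul]; congr 1; ring
        _ ≤ (Real.exp (-1)) ^ 96 := pow_le_pow_left₀ h3 h1 96
        _ ≤ 1 / 10 ^ 41 := by
            have h4 := Real.exp_one_gt_d9
            have h5 : (2.718 : ℝ) ^ 96 ≤ Real.exp 1 ^ 96 := pow_le_pow_left₀ (by norm_num) (by linarith) 96
            have h6 : (10 : ℝ) ^ 41 ≤ 2.718 ^ 96 := by norm_num
            rw [Real.exp_neg, inv_pow, one_div]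
            exact inv_anti₀ (by positivity) (h6.trans h5)
    have e : 96 * k + 4 * k = 100 * k := by ring
    rw [← e]
    refine h n M D hMD (le_trans ?_ hD)
    have : (0 : ℝ) ≤ (Nat.digits b n).length := by positivity
    have h2 := mul_le_mul_of_nonneg_right hη this
    have e2 : (1 : ℝ) / 10 ^ 41 * (Nat.digits b n).length = (Nat.digits b n).length / 10 ^ 41 := by ring
    rw [e2] at h2
    linarith
  · obtain ⟨C, hC1, hC⟩ := H16.WD.approx hk hb hc (by omega) hloc s
    refine ⟨C, by linarith, fun n M hM => ?_⟩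
    obtain ⟨x, w, hx, hsum, hwl, hwu⟩ := hC n M hM
    have hb0 : (0 : ℝ) < b := by exact_mod_cast (by omega : 0 < b)
    have hn0 : 0 < n := by
      have hpos : 0 < ∑ i, x i ^ k + b ^ M * w := by
        have : 0 < s + 4 * k := by omega
        have h1 : 0 < ∑ i, x i ^ k := by
          apply sum_pos (fun i _ => pow_pos (by have := hx i; omega) _)
          exact ⟨⟨0, this⟩, mem_univ _⟩
        omega
      omega
    have hw0 : 0 < w := by
      have h1 : (0 : ℝ) < (n : ℝ) ^ ((1 - 1 / (k : ℝ)) ^ s) := by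
        have : (0 : ℝ) < n := by exact_mod_cast hn0
        positivity
      have : (0 : ℝ) < w := by linarith
      exact_mod_cast this
    have hbM : 0 < b ^ M := pow_pos (by omega) _
    refine ⟨∑ i, x i ^ k, ⟨x, hx, rfl⟩, ?_, ?_, ?_⟩
    · have : 0 < b ^ M * w := Nat.mul_pos hbM hw0
      omega
    · rw [hsum]
      simp [Nat.ModEq]
    · have e : (n : ℝ) = ∑ i, (x i : ℝ) ^ k + (b : ℝ) ^ M * w := by exact_mod_cast hsum
      push_cast
      nth_rewrite 1 [e]
      calc _ = (b : ℝ) ^ M * w := by ring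
        _ ≤ (b : ℝ) ^ M * (C * (n : ℝ) ^ ((1 - 1 / (k : ℝ)) ^ s)) := by gcongr
        _ = _ := by ring

end Pool.Agent.Results.MP_570bef_nt.BlocksOfDigits
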