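import Pool.Agent.H88.War.Main

set_option autoImplicit false

/-!
# A linear bound in Waring's problem with products of almost equal factors

Let `k ≥ 2` and `t ≥ 2`. Every large integer is a sum of `t (k - 1) + 1` integers of the form
`x ^ (k - 1) y`, where `x`, `y` are positive integers with `|x - y| ≤ C x ^ (1 / t)`; any further
summands may be required to be `k`-th powers. For `t = 100`: `100 k` summands which are products
of `k` integers, all but one of them equal to `x`, and the last one `x + O(x ^ (1 / 100))`. More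
generally, for every `ε > 0` a linear number `O(k / ε)` of products with
`|x - y| ≤ C x ^ ε` suffices.

Idea of the proof. The bases are `b = x + i` and `b = x + a ^ j + i`, `1 ≤ j < t`, `0 ≤ i < k`, `a`
about `x ^ (1 / t)`. The iterated differences of the numbers `b ^ (k - 1)` with respect to `i`
and to the shifts `a ^ j` have the sizes `a ^ l` for all `l ≤ t (k - 1)`, so that the greedy
algorithm writes each number `O(x ^ (k - 1))` as a combination of the `b ^ (k - 1)` with
coefficients `O(a)`.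
-/

namespace Pool.Agent.Results.MP_570bef_nt.NearPowers

open Finset

theorem result (k t s : ℕ) (hk : 2 ≤ k) (ht : 2 ≤ t) (hs : t * (k - 1) + 1 ≤ s) :
    ∃ C N : ℕ, ∀ n : ℕ, N ≤ n → ∃ x y : Fin s → ℕ,
      (∀ i, 0 < x i ∧ 0 < y i ∧ |(x i : ℤ) - y i| ^ t ≤ C * x i) ∧
      (∀ i : Fin s, t * (k - 1) + 1 ≤ i.val → y i = x i) ∧
      n = ∑ i, x i ^ (k - 1) * y i := by
  obtain ⟨d, rfl⟩ : ∃ d, k = d + 1 := ⟨k - 1, by omega⟩
  rw [Nat.add_sub_cancel] at *
  obtain ⟨B, K, N, h⟩ := Pool.Agent.H88.War.main d t s ht hs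
  refine ⟨B ^ t, N, fun n hn => ?_⟩
  obtain ⟨a, x, hBa, ha, hda, hax, -, b, y, hb, hy, hexact, hsum⟩ := h n hn
  refine ⟨fun i => b i, fun i => y i, ?_, fun i hi => hexact i hi, ?_⟩
  · intro i
    obtain ⟨h1, h2⟩ := hy i
    obtain ⟨h3, -⟩ := hb i
    have h4 : 0 < x := lt_of_lt_of_le (Nat.mul_pos (Nat.succ_pos B) ha) hBa
    refine ⟨lt_of_lt_of_le h4 h3, h1, ?_⟩
    have h5 : |((b i : ℕ) : ℤ) - y i| ≤ B * a := by rw [abs_sub_comm]; exact h2
    have h6 : (a : ℤ) ^ t ≤ b i := by exact_mod_cast hax.trans h3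
    calc |((b i : ℕ) : ℤ) - y i| ^ t ≤ (B * a : ℤ) ^ t :=
          pow_le_pow_left₀ (abs_nonneg _) h5 t
      _ = (B : ℤ) ^ t * (a : ℤ) ^ t := mul_pow _ _ _
      _ ≤ (B : ℤ) ^ t * b i := mul_le_mul_of_nonneg_left h6 (by positivity)
      _ = ((B ^ t : ℕ) : ℤ) * ((b i : ℕ) : ℤ) := by push_cast; ring
  · rw [← hsum, ← Fin.sum_univ_eq_sum_range (fun i => b i ^ d * y i) s]

end Pool.Agent.Results.MP_570bef_nt.NearPowers
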