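import Mathlib
import Pool.Agent.H16.WD.Prog2

set_option autoImplicit false

/-!
# Two arbitrary sets dense on a short progression, and `k`-th powers linear in number

Let `k, b ≥ 2`, `0 < t ≤ 1`, `δ > 0` and `s > k log (1 / t)`. Let `S₁`, `S₂` be ANY sets such that `S_i` contains at
least `δ L` terms of a progression `r_i + b ^ (k A) j`, `0 ≤ j < L`, of numbers up to `n / 8`, with `L ≥ n ^ t` terms, no
matter how large the difference is. If `n` is large (in terms of `k, b, t, δ, s` only) then `n` is the sum of an element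
of `S₁`, an element of `S₂` and `s + 8 k` `k`-th powers. For `100 k - 2` powers `t = 10 ^ (-39)` is admissible. For
example, if `M` has positive lower density, every large `n` is `b ^ (k A) (m + m')` and `100 k - 2` powers, `m`, `m'` in
`M` and at most `n ^ (10 ^ (-39))`, for every `A` with `16 b ^ (k A) n ^ (10 ^ (-39)) ≤ n`.

As a consequence: if, for every large `X`, a positive proportion of the terms of one such progression in `[0, X]` are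
sums of `s₀` `k`-th powers, then every large integer is a sum of `2 s₀ + s + 8 k` `k`-th powers. For `s₀ = 6 k` and
`t = 10 ^ (-34)` this gives `G(k) ≤ 100 k`; and `G(k) = O(k)` is equivalent to such a property for every `k` with
`s₀ = C k`, `t = 1 / C` for a constant `C`.

Proof. By a greedy algorithm at the real place and at the primes dividing `b` at the same time every large `n` is a sum of
`s + 4 k` powers and `b ^ (k A) w`, where `b ^ (k A)` can be prescribed and `w` can be prescribed up to an error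
`O(n ^ ((1 - 1 / k) ^ s))`. This is applied to `n - r₁ - r₂` with `4 L ≤ w ≤ 5 L`. By the theorem of the library on two
dense sets (increment argument) `w = j + j' + y_1 ^ k + … + y_{4k} ^ k` where `r₁ + b ^ (k A) j` is in `S₁` and
`r₂ + b ^ (k A) j'` in `S₂`.
-/

open Finset

namespace Pool.Agent.Results.MP_570bef_nt.OneProgression

/-- `n` is a sum of `N` `k`-th powers of nonnegative integers -/
def SumOfPowers (k N n : ℕ) : Prop := ∃ x : Fin N → ℕ, n = ∑ i, x i ^ k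

/-- for some `δ > 0` and every large `X` there are a difference `(b ^ k) ^ A`, a first term `r` and a length `L ≥ X ^ t`
such that the progression `r + (b ^ k) ^ A j`, `0 ≤ j < L`, lies in `[0, X]` and at least `δ L` of its terms are sums of `N`
`k`-th powers -/
def DenseProgressions (k b N : ℕ) (t : ℝ) : Prop :=
  ∃ δ : ℝ, 0 < δ ∧ ∃ X₀ : ℕ, ∀ X : ℕ, X₀ ≤ X → ∃ A r L : ℕ, r + (b ^ k) ^ A * L ≤ X ∧ (X : ℝ) ^ t ≤ L ∧
    δ * L ≤ ({j : ℕ | j < L ∧ SumOfPowers k N (r + (b ^ k) ^ A * j)}.ncard : ℝ)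

/-- The set `M` has positive lower density. -/
def PositiveLowerDensity (M : Set ℕ) : Prop :=
  ∃ δ : ℝ, 0 < δ ∧ ∃ X₀ : ℕ, ∀ X : ℕ, X₀ ≤ X → δ * X ≤ ((M ∩ Set.Iio X).ncard : ℝ)

theorem result :
    -- two arbitrary sets which are dense on a short progression, and `s + 8 k` powers
    (∀ k b : ℕ, 2 ≤ k → 2 ≤ b → ∀ (s : ℕ) (t δ : ℝ), 0 < t → t ≤ 1 → 0 < δ → k * Real.log (1 / t) < s →
      ∃ N : ℕ, ∀ n : ℕ, N ≤ n → ∀ A r₁ r₂ L : ℕ, (n : ℝ) ^ t ≤ L → 8 * (r₁ + (b ^ k) ^ A * L) ≤ n →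
        8 * (r₂ + (b ^ k) ^ A * L) ≤ n → ∀ S₁ S₂ : Set ℕ,
        δ * L ≤ ({j : ℕ | j < L ∧ r₁ + (b ^ k) ^ A * j ∈ S₁}.ncard : ℝ) →
        δ * L ≤ ({j : ℕ | j < L ∧ r₂ + (b ^ k) ^ A * j ∈ S₂}.ncard : ℝ) →
        ∃ σ₁ ∈ S₁, ∃ σ₂ ∈ S₂, ∃ m : ℕ, SumOfPowers k (s + 8 * k) m ∧ n = σ₁ + σ₂ + m) ∧
    -- the same with `100 k - 2` powers
    (∀ k b : ℕ, 2 ≤ k → 2 ≤ b → ∀ δ : ℝ, 0 < δ →
      ∃ N : ℕ, ∀ n : ℕ, N ≤ n → ∀ A r₁ r₂ L : ℕ, (n : ℝ) ^ (1 / 10 ^ 39 : ℝ) ≤ L → 8 * (r₁ + (b ^ k) ^ A * L) ≤ n →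
        8 * (r₂ + (b ^ k) ^ A * L) ≤ n → ∀ S₁ S₂ : Set ℕ,
        δ * L ≤ ({j : ℕ | j < L ∧ r₁ + (b ^ k) ^ A * j ∈ S₁}.ncard : ℝ) →
        δ * L ≤ ({j : ℕ | j < L ∧ r₂ + (b ^ k) ^ A * j ∈ S₂}.ncard : ℝ) →
        ∃ σ₁ ∈ S₁, ∃ σ₂ ∈ S₂, ∃ m : ℕ, SumOfPowers k (100 * k - 2) m ∧ n = σ₁ + σ₂ + m) ∧
    -- sets of positive lower density
    (∀ k b : ℕ, 2 ≤ k → 2 ≤ b → ∀ M : Set ℕ, PositiveLowerDensity M →
      ∃ N : ℕ, ∀ n : ℕ, N ≤ n → ∀ A : ℕ, 16 * ((b ^ k : ℝ) ^ A * (n : ℝ) ^ (1 / 10 ^ 39 : ℝ)) ≤ n →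
        ∃ m₁ ∈ M, ∃ m₂ ∈ M, (m₁ : ℝ) ≤ (n : ℝ) ^ (1 / 10 ^ 39 : ℝ) ∧ (m₂ : ℝ) ≤ (n : ℝ) ^ (1 / 10 ^ 39 : ℝ) ∧
          ∃ m : ℕ, SumOfPowers k (100 * k - 2) m ∧ n = (b ^ k) ^ A * (m₁ + m₂) + m) ∧
    -- the application to Waring's problem
    (∀ k b : ℕ, 2 ≤ k → 2 ≤ b → ∀ (s₀ s : ℕ) (t : ℝ), 0 < t → t ≤ 1 → k * Real.log (1 / t) < s →
      DenseProgressions k b s₀ t → ∃ N : ℕ, ∀ n : ℕ, N ≤ n → SumOfPowers k (2 * s₀ + s + 8 * k) n) ∧
    -- a criterion for `G(k) ≤ 100 k`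
    (∀ k b : ℕ, 2 ≤ k → 2 ≤ b → DenseProgressions k b (6 * k) (1 / 10 ^ 34) →
      ∃ N : ℕ, ∀ n : ℕ, N ≤ n → SumOfPowers k (100 * k) n) ∧
    -- a criterion for `G(k) = O(k)`
    ((∃ C : ℕ, ∀ k : ℕ, 2 ≤ k → ∃ N : ℕ, ∀ n : ℕ, N ≤ n → SumOfPowers k (C * k) n) ↔
      ∃ C : ℕ, 1 ≤ C ∧ ∀ k : ℕ, 2 ≤ k → ∃ b : ℕ, 2 ≤ b ∧ DenseProgressions k b (C * k) (1 / C)) := by
  have power : ∀ k : ℕ, 2 ≤ k → ∀ (s : ℕ) (t : ℝ), 0 < t → k * Real.log (1 / t) < s → (1 - 1 / (k : ℝ)) ^ s < t := by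
    intro k hk s t ht0 hs
    have hk0 : (0 : ℝ) < k := by exact_mod_cast (by omega : 0 < k)
    have h1 : (1 - 1 / (k : ℝ)) ^ s ≤ Real.exp (-(s / k)) := by
      have h2 : 1 - 1 / (k : ℝ) ≤ Real.exp (-(1 / (k : ℝ))) := by
        have := Real.add_one_le_exp (-(1 / (k : ℝ)))
        linarith
      have h3 : 0 ≤ 1 - 1 / (k : ℝ) := by
        rw [sub_nonneg, div_le_one hk0]
        exact_mod_cast (by omega : 1 ≤ k)
      calc (1 - 1 / (k : ℝ)) ^ s ≤ (Real.exp (-(1 / (k : ℝ)))) ^ s := pow_le_pow_left₀ h3 h2 s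
        _ = Real.exp (-(s / k)) := by
            rw [← Real.exp_nat_mul]
            congr 1
            field_simp
    have h4 : -(s / k : ℝ) < Real.log t := by
      rw [one_div, Real.log_inv] at hs
      have h5 : -Real.log t < s / k := by
        rw [lt_div_iff₀ hk0]; linarith
      linarith
    exact h1.trans_lt ((Real.lt_log_iff_exp_lt ht0).1 h4)
  have two : ∀ k b : ℕ, 2 ≤ k → 2 ≤ b → ∀ (s : ℕ) (t δ : ℝ), 0 < t → t ≤ 1 → 0 < δ → k * Real.log (1 / t) < s →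
      ∃ N : ℕ, ∀ n : ℕ, N ≤ n → ∀ A r₁ r₂ L : ℕ, (n : ℝ) ^ t ≤ L → 8 * (r₁ + (b ^ k) ^ A * L) ≤ n →
        8 * (r₂ + (b ^ k) ^ A * L) ≤ n → ∀ S₁ S₂ : Set ℕ,
        δ * L ≤ ({j : ℕ | j < L ∧ r₁ + (b ^ k) ^ A * j ∈ S₁}.ncard : ℝ) →
        δ * L ≤ ({j : ℕ | j < L ∧ r₂ + (b ^ k) ^ A * j ∈ S₂}.ncard : ℝ) →
        ∃ σ₁ ∈ S₁, ∃ σ₂ ∈ S₂, ∃ m : ℕ, SumOfPowers k (s + 8 * k) m ∧ n = σ₁ + σ₂ + m := by
    intro k b hk hb s t δ ht0 ht1 hδ hs
    obtain ⟨N, hN⟩ := H16.WD.twoSets hk hb (s := s) (t := t) hδ (power k hk s t ht0 hs) ht1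
    refine ⟨N, fun n hn A r₁ r₂ L hL h1 h2 S₁ S₂ hc1 hc2 => ?_⟩
    simp_rw [← pow_mul] at h1 h2 hc1 hc2
    obtain ⟨σ₁, hσ₁, σ₂, hσ₂, m, hm, he⟩ := hN n hn A r₁ r₂ L hL h1 h2 S₁ S₂ hc1 hc2
    exact ⟨σ₁, hσ₁, σ₂, hσ₂, m, hm, he.symm⟩
  have hlog : ∀ k : ℕ, 2 ≤ k → (k : ℝ) * Real.log (1 / (1 / 10 ^ 39 : ℝ)) < ((92 * k - 2 : ℕ) : ℝ) := by
    intro k hk
    have h2 : Real.log (1 / (1 / 10 ^ 39 : ℝ)) < 90 := by
      rw [one_div_one_div, Real.log_lt_iff_lt_exp (by norm_num)]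
      have h4 := Real.exp_one_gt_d9
      have h5 : (2.718 : ℝ) ^ 90 ≤ Real.exp 1 ^ 90 := pow_le_pow_left₀ (by norm_num) (by linarith) 90
      have h6 : ((10 : ℝ) ^ 39) < 2.718 ^ 90 := by norm_num
      have h7 : Real.exp 90 = Real.exp 1 ^ 90 := by
        rw [← Real.exp_nat_mul]; norm_num
      rw [h7]
      linarith
    have hkR : (2 : ℝ) ≤ k := by exact_mod_cast hk
    rw [Nat.cast_sub (by omega)]
    push_cast
    nlinarith
  have two100 : ∀ k b : ℕ, 2 ≤ k → 2 ≤ b → ∀ δ : ℝ, 0 < δ →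
      ∃ N : ℕ, ∀ n : ℕ, N ≤ n → ∀ A r₁ r₂ L : ℕ, (n : ℝ) ^ (1 / 10 ^ 39 : ℝ) ≤ L → 8 * (r₁ + (b ^ k) ^ A * L) ≤ n →
        8 * (r₂ + (b ^ k) ^ A * L) ≤ n → ∀ S₁ S₂ : Set ℕ,
        δ * L ≤ ({j : ℕ | j < L ∧ r₁ + (b ^ k) ^ A * j ∈ S₁}.ncard : ℝ) →
        δ * L ≤ ({j : ℕ | j < L ∧ r₂ + (b ^ k) ^ A * j ∈ S₂}.ncard : ℝ) →
        ∃ σ₁ ∈ S₁, ∃ σ₂ ∈ S₂, ∃ m : ℕ, SumOfPowers k (100 * k - 2) m ∧ n = σ₁ + σ₂ + m := by
    intro k b hk hb δ hδ
    have h1 := two k b hk hb (92 * k - 2) (1 / 10 ^ 39) δ (by norm_num) (by norm_num) hδ (hlog k hk)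
    have e : 92 * k - 2 + 8 * k = 100 * k - 2 := by omega
    rw [e] at h1
    exact h1
  have main : ∀ k b : ℕ, 2 ≤ k → 2 ≤ b → ∀ (s₀ s : ℕ) (t : ℝ), 0 < t → t ≤ 1 → k * Real.log (1 / t) < s →
      DenseProgressions k b s₀ t → ∃ N : ℕ, ∀ n : ℕ, N ≤ n → SumOfPowers k (2 * s₀ + s + 8 * k) n := by
    rintro k b hk hb s₀ s t ht0 ht1 hs ⟨δ, hδ, X₀, H⟩
    have hk0 : (0 : ℝ) < k := by exact_mod_cast (by omega : 0 < k)
    refine H16.WD.progression hk hb (s0 := s₀) (s := s) (t := t) hδ ?_ ht1 (X0 := X₀) ?_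
    · have h1 : (1 - 1 / (k : ℝ)) ^ s ≤ Real.exp (-(s / k)) := by
        have h2 : 1 - 1 / (k : ℝ) ≤ Real.exp (-(1 / (k : ℝ))) := by
          have := Real.add_one_le_exp (-(1 / (k : ℝ)))
          linarith
        have h3 : 0 ≤ 1 - 1 / (k : ℝ) := by
          rw [sub_nonneg, div_le_one hk0]
          exact_mod_cast (by omega : 1 ≤ k)
        calc (1 - 1 / (k : ℝ)) ^ s ≤ (Real.exp (-(1 / (k : ℝ)))) ^ s := pow_le_pow_left₀ h3 h2 s
          _ = Real.exp (-(s / k)) := by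
              rw [← Real.exp_nat_mul]
              congr 1
              field_simp
      have h4 : -(s / k : ℝ) < Real.log t := by
        rw [one_div, Real.log_inv] at hs
        have h5 : -Real.log t < s / k := by
          rw [lt_div_iff₀ hk0]; linarith
        linarith
      exact h1.trans_lt ((Real.lt_log_iff_exp_lt ht0).1 h4)
    · intro X hX
      obtain ⟨A, r, L, h1, h2, h3⟩ := H X hX
      refine ⟨A, r, L, ?_, h2, ?_⟩
      · rw [pow_mul]; exact h1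
      · refine h3.trans (le_of_eq ?_)
        rw [pow_mul]
        rfl
  refine ⟨two, two100, ?_, main, ?_, ?_⟩
  · rintro k b hk hb M ⟨δ, hδ, X₀, hM⟩
    obtain ⟨N, hN⟩ := two100 k b hk hb δ hδ
    have hlim : Filter.Tendsto (fun n : ℕ => (n : ℝ) ^ (1 / 10 ^ 39 : ℝ)) Filter.atTop Filter.atTop :=
      (tendsto_rpow_atTop (by norm_num)).comp tendsto_natCast_atTop_atTop
    obtain ⟨N', hN'⟩ := Filter.eventually_atTop.1 ((hlim.eventually_ge_atTop 1).and (hlim.eventually_ge_atTop X₀))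
    refine ⟨max N N', fun n hn A hA => ?_⟩
    obtain ⟨h1, h2⟩ := hN' n ((le_max_right _ _).trans hn)
    set L : ℕ := ⌈(n : ℝ) ^ (1 / 10 ^ 39 : ℝ)⌉₊ with hL
    have hL1 : (n : ℝ) ^ (1 / 10 ^ 39 : ℝ) ≤ L := Nat.le_ceil _
    have hL2 : (L : ℝ) < (n : ℝ) ^ (1 / 10 ^ 39 : ℝ) + 1 := Nat.ceil_lt_add_one (by positivity)
    have hX₀ : X₀ ≤ L := by exact_mod_cast h2.trans hL1
    have hsize : 8 * (0 + (b ^ k) ^ A * L) ≤ n := by
      have hb0 : (0 : ℝ) ≤ (b ^ k : ℝ) ^ A := by positivity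
      have h3 : 8 * (0 + (b ^ k : ℝ) ^ A * L) ≤ n := by nlinarith
      exact_mod_cast h3
    have hbk : 0 < (b ^ k) ^ A := by positivity
    have hcount : δ * L ≤ ({j : ℕ | j < L ∧ 0 + (b ^ k) ^ A * j ∈
        (fun m => (b ^ k) ^ A * m) '' {m | m ∈ M ∧ m < L}}.ncard : ℝ) := by
      refine (hM L hX₀).trans ?_
      apply Nat.cast_le.2
      apply Set.ncard_le_ncard
      · rintro m ⟨hm1, hm2⟩
        exact ⟨hm2, m, ⟨hm1, hm2⟩, by simp⟩
      · exact Set.Finite.subset (Set.finite_Iio L) fun m hm => hm.1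
    obtain ⟨σ₁, ⟨m₁, ⟨hm₁, hm₁L⟩, rfl⟩, σ₂, ⟨m₂, ⟨hm₂, hm₂L⟩, rfl⟩, m, hm, he⟩ :=
      hN n ((le_max_left _ _).trans hn) A 0 0 L hL1 hsize hsize _ _ hcount hcount
    refine ⟨m₁, hm₁, m₂, hm₂, (Nat.lt_ceil.1 hm₁L).le, (Nat.lt_ceil.1 hm₂L).le, m, hm, ?_⟩
    rw [he]
    ring
  · intro k b hk hb h
    have hk0 : (0 : ℝ) < k := by exact_mod_cast (by omega : 0 < k)
    have h1 := main k b hk hb (6 * k) (80 * k) (1 / 10 ^ 34) (by norm_num) (by norm_num) ?_ h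
    · have e : 2 * (6 * k) + 80 * k + 8 * k = 100 * k := by ring
      rw [e] at h1
      exact h1
    · have h2 : Real.log (1 / (1 / 10 ^ 34)) < 80 := by
        rw [one_div_one_div, Real.log_lt_iff_lt_exp (by norm_num)]
        have h4 := Real.exp_one_gt_d9
        have h5 : (2.718 : ℝ) ^ 80 ≤ Real.exp 1 ^ 80 := pow_le_pow_left₀ (by norm_num) (by linarith) 80
        have h6 : ((10 : ℝ) ^ 34) < 2.718 ^ 80 := by norm_num
        have h7 : Real.exp 80 = Real.exp 1 ^ 80 := by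
          rw [← Real.exp_nat_mul]; norm_num
        rw [h7]
        linarith
      push_cast
      nlinarith
  · constructor
    · rintro ⟨C, hC⟩
      refine ⟨C + 1, by omega, fun k hk => ⟨2, le_rfl, ?_⟩⟩
      obtain ⟨N, hN⟩ := hC k hk
      refine ⟨1 / 2, by norm_num, 2 * N + 1, fun X hX => ⟨0, 0, X, by simp, ?_, ?_⟩⟩
      · have hX1 : (1 : ℝ) ≤ X := by exact_mod_cast (by omega : 1 ≤ X)
        calc (X : ℝ) ^ (1 / ((C + 1 : ℕ) : ℝ)) ≤ (X : ℝ) ^ (1 : ℝ) := by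
              apply Real.rpow_le_rpow_of_exponent_le hX1
              rw [div_le_one (by positivity)]
              exact_mod_cast (by omega : 1 ≤ C + 1)
          _ = X := Real.rpow_one _
      · have hsub : Set.Ico N X ⊆ {j : ℕ | j < X ∧ SumOfPowers k ((C + 1) * k) (0 + (2 ^ k) ^ 0 * j)} := by
          rintro m ⟨hm1, hm2⟩
          refine ⟨hm2, ?_⟩
          have h0 : H16.WD.Sums k k 0 := ⟨fun _ => 0, by simp [zero_pow (by omega : k ≠ 0)]⟩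
          have h1 : H16.WD.Sums k (C * k) m := hN m hm1
          have h2 := h1.add h0
          have e1 : C * k + k = (C + 1) * k := by ring
          have e2 : 0 + (2 ^ k) ^ 0 * m = m + 0 := by simp
          rw [e1] at h2
          rw [e2]
          exact h2
        have hfin : {j : ℕ | j < X ∧ SumOfPowers k ((C + 1) * k) (0 + (2 ^ k) ^ 0 * j)}.Finite :=
          Set.Finite.subset (Set.finite_Iio X) fun m hm => hm.1
        have h1 := Set.ncard_le_ncard hsub hfin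
        have h2 : (Set.Ico N X).ncard = X - N := by
          rw [← Finset.coe_Ico, Set.ncard_coe_finset, Nat.card_Ico]
        rw [h2] at h1
        have h3 : X ≤ 2 * (X - N) := by omega
        have h4 : (X : ℝ) ≤ 2 * ({j : ℕ | j < X ∧ SumOfPowers k ((C + 1) * k) (0 + (2 ^ k) ^ 0 * j)}.ncard : ℝ) := by
          exact_mod_cast h3.trans (Nat.mul_le_mul_left 2 h1)
        linarith
    · rintro ⟨C, hC1, hC⟩
      obtain ⟨j, hj⟩ := exists_nat_gt (Real.log C)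
      refine ⟨2 * C + j + 8, fun k hk => ?_⟩
      obtain ⟨b, hb, h⟩ := hC k hk
      have hk0 : (0 : ℝ) < k := by exact_mod_cast (by omega : 0 < k)
      have hC0 : (1 : ℝ) ≤ C := by exact_mod_cast hC1
      have h1 := main k b hk hb (C * k) (k * j) (1 / C) (by positivity) (by rw [div_le_one (by linarith)]; exact hC0)
        ?_ h
      · have e : 2 * (C * k) + k * j + 8 * k = (2 * C + j + 8) * k := by ring
        rw [e] at h1
        exact h1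
      · push_cast
        rw [one_div_one_div]
        gcongr

end Pool.Agent.Results.MP_570bef_nt.OneProgression
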