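import Mathlib
import Pool.Agent.H24.PS.Num

/-!
# `4 k - 1`, or `100 k - 1`, `k`-th powers of primes and one number `⌊y ^ c⌋`

Let `c > 1` be a real number which is not an integer.  The numbers `⌊y ^ c⌋`, `y ∈ ℕ`
(Piatetski-Shapiro numbers), are a sequence with about `n ^ (1 / c)` elements up to `n`.  We show:

* for arbitrary sets `A`, `B` of natural numbers `≤ n / 4` with `|A| |B| ≥ C n ^ (3 - 2 / c)`
  (if `c < 2`; with another explicit exponent `< 2` for any `c`) the number `n - a - b` is a number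
  `⌊y ^ c⌋` for at least `κ n ^ (1 / c - 1) |A| |B|` of the pairs `(a, b) ∈ A × B`; this is the
  expected order of magnitude;
* for every `k ≥ 2` and every `s ≥ (3 c / 2 + 19) k` every large integer is a sum of `s` `k`-th
  powers and one number `⌊y ^ c⌋`, where `y ≥ n ^ (1 / c) / 4`; if `c < 2`, it suffices that
  `(1 - 1 / k) ^ ⌊s / 2⌋ < 1 / c - 1 / 2` (this holds for `s > 2 k log (2 c / (2 - c)) + 1`);
* the bases of the `k`-th powers may be taken in any set of natural numbers whose counting function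
  is `x ^ (1 - o(1))`, for instance they may be primes.  So, for all `k ≥ 2`, it suffices to take
  `2 k` `k`-th powers of primes for `c ≤ 1.15`, `4 k - 1` for `c ≤ 1.57` and `100 k - 1` for `c ≤ 53`.
-/

set_option autoImplicit false

namespace Pool.Agent.Results.MP_570bef_nt.PiatetskiShapiroSummand

open Finset

/-- The set `𝓑` of natural numbers has exponent one: for every `ε > 0` it has at least
`x ^ (1 - ε)` elements `≤ x`, for all large `x`. -/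
def HasExponentOne (𝓑 : Set ℕ) : Prop :=
  ∀ ε : ℝ, 0 < ε → ∃ x₀ : ℕ, ∀ x : ℕ, x₀ ≤ x →
    (x : ℝ) ^ (1 - ε) ≤ ({b | b ∈ 𝓑 ∧ b ≤ x} : Set ℕ).ncard

open Classical in
/-- the pairs `(a, b) ∈ A × B` for which `n = a + b + ⌊y ^ c⌋` with a natural number
`y ≥ n ^ (1 / c) / 4` -/
noncomputable def pairs (A B : Finset ℕ) (c : ℝ) (n : ℕ) : Finset (ℕ × ℕ) :=
  (A ×ˢ B).filter fun p => ∃ y : ℕ, n = p.1 + p.2 + ⌊(y : ℝ) ^ c⌋₊ ∧ (n : ℝ) ≤ (4 * (y : ℝ)) ^ c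

/-- There are `C, κ > 0` such that for all large `n` and all finite sets `A`, `B` of natural
numbers `≤ n / 4` with `|A| |B| ≥ C n ^ θ` there are at least `κ n ^ (1 / c - 1) |A| |B|` pairs
`(a, b) ∈ A × B` with `n = a + b + ⌊y ^ c⌋`, `y ≥ n ^ (1 / c) / 4`. -/
def ManyPairs (c θ : ℝ) : Prop :=
  ∃ C κ : ℝ, 0 < C ∧ 0 < κ ∧ ∃ n₀ : ℕ, ∀ n : ℕ, n₀ ≤ n → ∀ A B : Finset ℕ,
    (∀ a ∈ A, 4 * a ≤ n) → (∀ b ∈ B, 4 * b ≤ n) → C * (n : ℝ) ^ θ ≤ (A.card : ℝ) * B.card →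
    κ * (n : ℝ) ^ (1 / c - 1) * ((A.card : ℝ) * B.card) ≤ (pairs A B c n).card

/-- Every large `n` is a sum of `s` `k`-th powers of elements of `𝓑` and one number `⌊y ^ c⌋` with
`y ≥ n ^ (1 / c) / 4`. -/
def Represents (c : ℝ) (𝓑 : Set ℕ) (k s : ℕ) : Prop :=
  ∃ n₀ : ℕ, ∀ n : ℕ, n₀ ≤ n → ∃ (x : Fin s → ℕ) (y : ℕ), (∀ i, x i ∈ 𝓑) ∧
    n = ∑ i, x i ^ k + ⌊(y : ℝ) ^ c⌋₊ ∧ (n : ℝ) ≤ (4 * (y : ℝ)) ^ c

/-- Let `c > 1` be a real number, not an integer.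

(1) If `c < 2`, then `ManyPairs c (3 - 2 / c)`.

(2) `ManyPairs c (2 - 1 / (16 c K 2 ^ K))` for every integer `K ≥ c - 1 / 2`.

(3) Let `𝓑` be a set of natural numbers of exponent one, `k ≥ 2`, and let `s ≥ (3 c / 2 + 19) k`, or
`c < 2` and `(1 - 1 / k) ^ ⌊s / 2⌋ < 1 / c - 1 / 2`.  Every large `n` is a sum of `s` `k`-th powers of
elements of `𝓑` and one number `⌊y ^ c⌋`.

(4) This holds for the `k`-th powers of primes, for all `k ≥ 2`, if `s = 2 k` and `c ≤ 1.15`, if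
`s = 4 k - 1` and `c ≤ 1.57`, and if `s = 100 k - 1` and `c ≤ 53`. -/
theorem result (c : ℝ) (hc : ∀ m : ℕ, c ≠ m) (hc1 : 1 < c) :
    (c < 2 → ManyPairs c (3 - 2 / c)) ∧
    (∀ K : ℕ, c - 1 / 2 ≤ K → ManyPairs c (2 - 1 / (16 * c * K * 2 ^ K))) ∧
    (∀ 𝓑 : Set ℕ, HasExponentOne 𝓑 → ∀ k s : ℕ, 2 ≤ k →
      ((3 / 2 * c + 19) * k ≤ s ∨ (c < 2 ∧ (1 - 1 / (k : ℝ)) ^ (s / 2) < 1 / c - 1 / 2)) →
      Represents c 𝓑 k s) ∧
    (∀ k s : ℕ, 2 ≤ k → ((c ≤ 1.15 ∧ s = 2 * k) ∨ (c ≤ 1.57 ∧ s = 4 * k - 1) ∨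
      (c ≤ 53 ∧ s = 100 * k - 1)) → Represents c {p | p.Prime} k s) := by
  have hc0 : 0 < c := by linarith
  refine ⟨?_, ?_, ?_, ?_⟩
  · intro hc2
    obtain ⟨C, hC, h4⟩ := Pool.Agent.H24.PS.G_two hc hc1 hc2
    obtain ⟨C', κ, hC', hκ, n₀, h⟩ := Pool.Agent.H24.PS.sets2 hc1 (by linarith) hC h4
    refine ⟨C', κ, hC', hκ, n₀, fun n hn A B hA hB hAB => h n hn A B ?_ ?_ ?_⟩
    · intro a ha
      exact_mod_cast hA a ha
    · intro b hb
      exact_mod_cast hB b hb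
    · refine le_trans (le_of_eq ?_) hAB
      congr 2
      field_simp
      ring
  · intro K hK
    have hK1 : (0 : ℝ) < K := by linarith
    have hK0 : 1 ≤ K := by
      have : 0 < K := by exact_mod_cast hK1
      exact this
    have hKR : (1 : ℝ) ≤ K := by exact_mod_cast hK0
    have h5 : (0 : ℝ) ≤ 1 - 1 / (32 * K * 2 ^ K) := by
      rw [sub_nonneg, div_le_one (by positivity)]
      have h6 : (1 : ℝ) ≤ 2 ^ K := one_le_pow₀ (by norm_num)
      nlinarith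
    obtain ⟨Q0, hQ0⟩ := Pool.Agent.H24.PS.G_gen hc hc1 K hK
    obtain ⟨C', κ, hC', hκ, n₀, h⟩ := Pool.Agent.H24.PS.sets2 hc1 (C := 1) h5 one_pos
      ⟨Q0, fun Q hQ j ξ a b => by
        rw [one_mul]
        exact hQ0 Q hQ j ξ a b⟩
    refine ⟨C', κ, hC', hκ, n₀, fun n hn A B hA hB hAB => h n hn A B ?_ ?_ ?_⟩
    · intro a ha
      exact_mod_cast hA a ha
    · intro b hb
      exact_mod_cast hB b hb
    · refine le_trans (le_of_eq ?_) hAB
      congr 2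
      field_simp
      ring
  · intro 𝓑 h𝓑 k s hk hs
    rcases hs with hs | ⟨hc2, hs⟩
    · exact Pool.Agent.H24.PS.waring_any hc hc1 h𝓑 hk hs
    · exact Pool.Agent.H24.PS.waring_two hc hc1 hc2 h𝓑 hk hs
  · intro k s hk hs
    exact Pool.Agent.H24.PS.explicit hc hc1 Pool.Agent.H24.PS.expOne_primes hk hs

end Pool.Agent.Results.MP_570bef_nt.PiatetskiShapiroSummand
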